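import Pool.Agent.Helper7.OSIMain

/-- For every constant failure probability `δ > 0`, the relative error bound for the randomized
SVD fails for oblivious subspace injections: there are no constants `C`, `p > 0` such that
`‖A - (A Ω)(A Ω)⁺ A‖ ≤ (1 + C ε) ‖A - A_r‖` holds with probability at least `p` for all `A`,
`r`, `ε` and all OSIs with dimension `r`, injectivity `1 - ε` and failure probability `δ`. -/
theorem Pool.Agent.Results.MP_082b65_an.ConstantFailure.result (δ : ℝ) (hδ : 0 < δ) :
    ¬ Pool.Agent.Helper7.OSI.RelativeErrorBound δ :=
  Pool.Agent.Helper7.OSI.not_bound δ hδ
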